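import Pool.Agent.H264R2.Bounds

set_option autoImplicit false

namespace Pool.Agent.Results.MP_67d718_co.UpperBound

open Finset Pool.Agent.H264R2.Pigeon

/-- Euclidean distance of two lattice points. -/
noncomputable def eucl (a b : ℤ × ℤ) : ℝ :=
  Real.sqrt (((a.1 : ℝ) - b.1) ^ 2 + ((a.2 : ℝ) - b.2) ^ 2)

/-- The `n × n` grid `{(x, y) : 1 ≤ x ≤ n, 1 ≤ y ≤ n}`. -/
noncomputable def grid (n : ℕ) : Finset (ℤ × ℤ) := Finset.Icc (1 : ℤ) n ×ˢ Finset.Icc (1 : ℤ) n

/-- The distances between the unordered pairs of distinct points of `S` are pairwise different. -/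
def DistinctDistances (S : Finset (ℤ × ℤ)) : Prop :=
  ∀ a ∈ S, ∀ b ∈ S, ∀ c ∈ S, ∀ e ∈ S, a ≠ b → c ≠ e → eucl a b = eucl c e →
    (a = c ∧ b = e) ∨ (a = e ∧ b = c)

open Classical in
/-- The largest size of a subset of the `n × n` grid with distinct distances. -/
noncomputable def kmax (n : ℕ) : ℕ :=
  ((grid n).powerset.filter DistinctDistances).sup Finset.card

lemma eucl_eq_of_nd {x y : (ℤ × ℤ) × (ℤ × ℤ)} (h : nd x = nd y) : eucl x.1 x.2 = eucl y.1 y.2 := by
  have h1 := nd_cast x
  have h2 := nd_cast y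
  rw [h] at h1
  have h3 : N2 (x.1 - x.2) = N2 (y.1 - y.2) := h1.symm.trans h2
  unfold N2 at h3
  simp only [Prod.fst_sub, Prod.snd_sub] at h3
  unfold eucl
  congr 1
  exact_mod_cast h3

lemma card_le {S : Finset (ℤ × ℤ)} (hS : DistinctDistances S) (m : ℕ) (hm : 0 < m) :
    ((S ×ˢ S).filter (fun x => nd x = m)).card ≤ 2 := by
  classical
  rcases Finset.eq_empty_or_nonempty ((S ×ˢ S).filter (fun x => nd x = m)) with h | ⟨y, hy⟩
  · rw [h]; simp
  · have hsub : (S ×ˢ S).filter (fun x => nd x = m) ⊆ {y, (y.2, y.1)} := by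
      intro x hx
      rw [mem_filter, mem_product] at hx hy
      have hne : ∀ z : (ℤ × ℤ) × (ℤ × ℤ), nd z = m → z.1 ≠ z.2 := by
        intro z hz h
        have h1 := nd_cast z
        rw [h, sub_self, hz] at h1
        have : N2 (0 : ℤ × ℤ) = 0 := by simp [N2]
        rw [this] at h1
        omega
      have := hS x.1 hx.1.1 x.2 hx.1.2 y.1 hy.1.1 y.2 hy.1.2 (hne x hx.2) (hne y hy.2)
        (eucl_eq_of_nd (hx.2.trans hy.2.symm))
      rw [mem_insert, mem_singleton]
      rcases this with ⟨h1, h2⟩ | ⟨h1, h2⟩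
      · left; exact Prod.ext h1 h2
      · right; exact Prod.ext h1 h2
    exact (card_le_card hsub).trans Finset.card_le_two

/-- The largest subset of the `n × n` grid with distinct distances has at most
`n ^ (1 - c / log log n)` points, with `c = 1/400`, for all large `n`. -/
theorem result : ∃ n₀ : ℕ, ∀ n : ℕ, n₀ ≤ n →
    (kmax n : ℝ) ≤ (n : ℝ) ^ (1 - 1 / 400 / Real.log (Real.log n)) := by
  classical
  obtain ⟨n₀, h⟩ := Pool.Agent.H264R2.Bounds.distinct
  refine ⟨n₀, fun n hn => ?_⟩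
  have hne : ((grid n).powerset.filter DistinctDistances).Nonempty := by
    refine ⟨∅, ?_⟩
    rw [mem_filter, mem_powerset]
    exact ⟨Finset.empty_subset _, fun a ha => absurd ha (Finset.notMem_empty a)⟩
  obtain ⟨S, hS, hcard⟩ := Finset.exists_mem_eq_sup _ hne Finset.card
  have hk : kmax n = S.card := by
    unfold kmax
    convert hcard
  rw [hk]
  rw [mem_filter, mem_powerset] at hS
  apply h n hn S
  · intro a ha
    have := hS.1 ha
    rw [grid, mem_product, mem_Icc, mem_Icc] at this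
    exact this
  · intro m hm
    exact card_le hS.2 m hm

end Pool.Agent.Results.MP_67d718_co.UpperBound
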